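import Mathlib
import Pool.Agent.Z058.Match

/-!
# Manyfold perfect matchings by regular indices

Call `i`, `1 ≤ i ≤ (p - 3) / 2`, a regular index of the prime `p` if `p` does not divide the numerator of
`B_{2i}`.  Let `k' ≤ k`, `2 ≤ k + k'` and `(k + k' + 1) L < p`, and let `C` be the set of the `(k + k') L - k` triples
`(t, c, l)`, `0 ≤ c < k`, `0 ≤ l < L`, `t` a Boolean, with `l ≥ 1` if `t` is false and `c ≥ k - k'` if `t` is true.
There is a bijection `f` of `C` to the interval `[k + L, (k + k' + 1) L)` such that `f (t, c, l) - (c + l)` is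
always twice a regular index.  So (Hall), if `μ (s)` is the number of the `(t, c, l)` in `C` with
`c + l = s`, then for every set `S` of shifts at least `∑_{s ∈ S} μ (s)` of the integers `m` in that
interval are of the form `s + 2 i`, `s ∈ S`, `i` regular, and this inequality is an equality for the set
of all shifts.

The excluded parameters `k = 1`, `k' = 0` correspond to the file `RegularPermutations` of this problem
(there every shift is used once, here up to `k + k'` times).  For `k = k' = L = r + 1`, `(2r + 3)(r + 1) < p`, it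
follows that every `m` in the interval is `s + 2 i` with a regular `i` and `0 ≤ s ≤ 2 r`, which is the
statement of `IrregularRuns` for these `r`.

Outline.  Let `F = coth (x / 2)`, `z = tanh (x / 2)`, with coefficients modulo `p`; `z = 2 F(2x) - F(x)`.
The coefficients of `F^(j)` and `z^(j)` (the derivatives) vanish outside of the exponents `2 i - 1 - j`,
`i` regular (and `-1 - j` for `F^(j)`). Consider the `(k + k' + 1) L` functions `x^l`, `x^l F^(j)` (`j < k`),
`x^l z^(j)` (`j < k'`), `l < L`. The derivatives are polynomials in `F = 1/z` and in `z` of degree `j + 1`. So a linear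
combination of these functions is, after multiplication with `z^k`, a polynomial in `x` and `z` of
degree less than `L` in `x` and at most `k + k'` in `z`, hence, times `(e^x + 1)^(k + k')`, a polynomial of these degrees
in `x` and `e^x`, and its order of vanishing at `0` is less than `(k + k' + 1) L` unless it is zero
(`Pool/Agent/Z058/ZE.lean`). Hence the square matrix of the coefficients of these functions at
`x^e`, `-k ≤ e < (k + k' + 1) L - k`, is nonsingular modulo `p` (`NV.lean`), and the terms of its determinant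
are the matchings, after removing the rows with `e < L`, the columns `x^l` and one column for each polar
coefficient (`Match.lean`; this is done with Hall's theorem).
-/

set_option autoImplicit false

namespace Pool.Agent.Results.MP_a3a416_nt.ManyfoldMatchings

open Finset Pool.Agent.Z058

/-- The triples `(t, c, l)`, `0 ≤ c < k`, `0 ≤ l < L`, `t` a Boolean, such that `l ≥ 1` if `t` is false and
`c ≥ k - k'` if `t` is true. -/
def triples (k k' L : ℕ) : Set (Bool × ℕ × ℕ) :=
  {x | x.2.1 < k ∧ x.2.2 < L ∧ (x.1 = false → 1 ≤ x.2.2) ∧ (x.1 = true → k ≤ x.2.1 + k')}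

/-- Let `p` be a prime, `k' ≤ k`, `2 ≤ k + k'` and `(k + k' + 1) L < p`. There is a bijection `f` of the set `triples k k' L`
to the interval `[k + L, (k + k' + 1) L)` such that for every element `(t, c, l)` of that set
`f (t, c, l) = c + l + 2 i` with a positive integer `i` such that `p` does not divide the numerator of `B_{2i}`. -/
theorem result (p : ℕ) (hp : p.Prime) (k k' L : ℕ) (hk : k' ≤ k) (h2 : 2 ≤ k + k') (h : (k + k' + 1) * L < p) :
    ∃ f : Bool × ℕ × ℕ → ℕ, Set.BijOn f (triples k k' L) (Set.Ico (k + L) ((k + k' + 1) * L)) ∧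
      ∀ x ∈ triples k k' L, ∃ i : ℕ, 0 < i ∧ f x = x.2.1 + x.2.2 + 2 * i ∧
        ¬ ((p : ℤ) ∣ (bernoulli (2 * i)).num) := by
  classical
  have : Fact p.Prime := ⟨hp⟩
  -- the trivial case
  by_cases htriv : L = 0
  · have e1 : triples k k' L = ∅ := by
      ext x
      simp only [triples, Set.mem_ofPred_eq, Set.mem_empty_iff_false, iff_false]
      rintro ⟨h1, h2, -⟩
      omega
    have e2 : Set.Ico (k + L) ((k + k' + 1) * L) = ∅ := by
      rw [Set.Ico_eq_empty_iff]
      subst htriv; omega
    rw [e1, e2]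
    refine ⟨fun _ => 0, Set.bijOn_empty _, ?_⟩
    intro x hx
    exact absurd hx (Set.notMem_empty _)
  have hL : 1 ≤ L := Nat.one_le_iff_ne_zero.2 htriv
  have hk1 : 1 ≤ k := by omega
  have h3 : 3 ≤ p := by nlinarith
  obtain ⟨f, hf1, hf2⟩ := matching (p := p) h3 hk hL h
  set F : Bool × ℕ × ℕ → ℕ := fun x => if x.1 = true then f (2 * k - x.2.1, x.2.2) else f (x.2.1, x.2.2) with hF
  have hadm : ∀ x ∈ triples k k' L, ∃ c : ℕ, c ≤ k + k' ∧ Adm k c x.2.2 ∧ F x = f (c, x.2.2) ∧ x.2.2 < L ∧
      sh k c x.2.2 = x.2.1 + x.2.2 ∧ (x.1 = true → c = 2 * k - x.2.1 ∧ k < c) ∧ (x.1 = false → c = x.2.1 ∧ c < k) := by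
    rintro ⟨t, c, l⟩ ⟨h1, h2, h4, h5⟩
    simp only at h1 h2 h4 h5
    cases t with
    | false =>
      refine ⟨c, by omega, ⟨by omega, fun _ => h4 rfl⟩, by simp [hF], h2, ?_, by simp, fun _ => ⟨rfl, h1⟩⟩
      simp only [sh]; rw [if_pos h1]
    | true =>
      have h6 := h5 rfl
      refine ⟨2 * k - c, by omega, ⟨by omega, fun h7 => absurd h7 (by omega)⟩, by simp [hF], h2, ?_,
        fun _ => ⟨rfl, by omega⟩, by simp⟩
      simp only [sh]; rw [if_neg (by omega)]; omega
  have hmaps : ∀ x ∈ triples k k' L, F x ∈ Set.Ico (k + L) ((k + k' + 1) * L) := by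
    intro x hx
    obtain ⟨c, h1, h2, h4, h5, -, -, -⟩ := hadm x hx
    rw [h4]
    exact (hf2 (c, x.2.2) h1 h5 h2).1
  have hinj : Set.InjOn F (triples k k' L) := by
    rintro ⟨t, c, l⟩ hx ⟨t', c', l'⟩ hy hxy
    obtain ⟨d, h1, h2, h4, h5, -, h6, h7⟩ := hadm _ hx
    obtain ⟨d', h1', h2', h4', h5', -, h6', h7'⟩ := hadm _ hy
    rw [h4, h4'] at hxy
    have h8 := hf1 (show (d, l) ∈ _ from ⟨h1, h5, h2⟩) (show (d', l') ∈ _ from ⟨h1', h5', h2'⟩) hxy
    obtain ⟨h9, h10⟩ := Prod.mk.inj h8
    have hc : c < k := hx.1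
    have hc' : c' < k := hy.1
    simp only at h6 h7 h6' h7'
    cases t <;> cases t' <;> simp only [forall_const, reduceCtorEq, IsEmpty.forall_iff] at h6 h7 h6' h7' <;>
      first
      | (exfalso; omega)
      | (have : c = c' := by omega
         subst this; subst h10; rfl)
  refine ⟨F, ⟨hmaps, hinj, ?_⟩, ?_⟩
  · -- surjectivity by counting
    set A : Finset (Bool × ℕ × ℕ) := ({false} : Finset Bool) ×ˢ (range k ×ˢ Finset.Ico 1 L) with hA
    set B : Finset (Bool × ℕ × ℕ) := ({true} : Finset Bool) ×ˢ (Finset.Ico (k - k') k ×ˢ range L) with hB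
    have hAB : Disjoint A B := by
      rw [Finset.disjoint_left]
      rintro ⟨t, c, l⟩ h1 h2
      rw [hA, mem_product, mem_singleton] at h1
      rw [hB, mem_product, mem_singleton] at h2
      have := h1.1.symm.trans h2.1
      exact absurd this (by decide)
    have hcard : (A ∪ B).card = k * (L - 1) + k' * L := by
      rw [card_union_of_disjoint hAB, hA, hB, card_product, card_product, card_product, card_product, card_singleton, card_singleton,
        card_range, card_range, Nat.card_Ico, Nat.card_Ico]
      have : k - (k - k') = k' := by omega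
      rw [this]; ring
    have hsub : ((A ∪ B : Finset (Bool × ℕ × ℕ)) : Set (Bool × ℕ × ℕ)) ⊆ triples k k' L := by
      rintro ⟨t, c, l⟩ hx
      rw [mem_coe, mem_union, hA, hB, mem_product, mem_product, mem_product, mem_product, mem_singleton, mem_singleton, mem_range,
        mem_range, Finset.mem_Ico, Finset.mem_Ico] at hx
      simp only at hx
      rcases hx with ⟨rfl, h1, h2⟩ | ⟨rfl, h1, h2⟩
      · exact ⟨h1, h2.2, fun _ => h2.1, by simp⟩
      · refine ⟨h1.2, h2, by simp, fun _ => ?_⟩
        simp only; omega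
    have hsurj := Finset.surjOn_of_injOn_of_card_le (s := A ∪ B) (t := Finset.Ico (k + L) ((k + k' + 1) * L)) F
      (fun x hx => by
        rw [Finset.coe_Ico]
        exact hmaps x (hsub hx)) (hinj.mono hsub) (by
        rw [hcard, Nat.card_Ico]
        obtain ⟨L', rfl⟩ : ∃ L', L = L' + 1 := ⟨L - 1, by omega⟩
        rw [Nat.add_sub_cancel]
        have : (k + k' + 1) * (L' + 1) = (k * L' + k' * (L' + 1)) + (k + (L' + 1)) := by ring
        omega)
    intro m hm
    rw [Finset.coe_Ico] at hsurj
    obtain ⟨x, hx, hx2⟩ := hsurj hm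
    exact ⟨x, hsub hx, hx2⟩
  · intro x hx
    obtain ⟨c, h1, h2, h4, h5, h6, -, -⟩ := hadm x hx
    rw [h4]
    obtain ⟨-, i, hi, hi2, hi3⟩ := hf2 (c, x.2.2) h1 h5 h2
    exact ⟨i, hi, by rw [hi2, h6], hi3⟩

end Pool.Agent.Results.MP_a3a416_nt.ManyfoldMatchings
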