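import Mathlib
import Pool.Agent.Z058.ExpPoly

/-!
# Exponential polynomials do not vanish on the regular indices

Call `i`, `1 ≤ i ≤ (p - 3) / 2`, a regular index of the prime `p` if `p` does not divide the numerator of
`B_{2i}`.  Let `S` be a finite set of positive integers less than `p`, let `D` be the number of the complex
numbers `z` with `z ^ a = 1` for some `a` in `S` (`degreeSum S`), and let `E (i) = ∑ λ_a (i) a ^ (2 i)`, `a` in `S`, be
an exponential polynomial with polynomials `λ_a` of degree less than `k` over the field with `p` elements, not all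
zero.  Then for every `A` with `T = (D k + 1) (max (2 A) k + 1) ≤ p` there is a regular index `i` with `E (i) ≠ 0`
and `A < i ≤ (T - k - 1) / 2`.

So (`A = 0`) the `|S| k` functions `i ^ j a ^ (2 i)`, `j < k`, `a` in `S`, are linearly independent on the set of
the regular indices `i ≤ D k (k + 1) / 2`, whatever the prime `p ≥ (D k + 1) (k + 1)` is; in particular there are at
least `|S| k` such indices (for `k = 1`, `S = {1, …, m}`: `m` regular indices up to
`φ(1) + … + φ(m)`).  If `B` is a finite set of integers `b ≥ 2`, there is a constant `C` such that for all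
`A ≥ 0` and all primes `p > C (A + 1)` there is a regular index `i` with `A < i < C (A + 1)` which is not a multiple of
the order of `b ^ 2` modulo `p` for any `b` in `B` (`E (i) = ∏ (b ^ (2 i) - 1)`).

Outline.  Let `F = coth (x / 2)` modulo `p`. The functions `x^(j+1) F^(j) (a x)` have the coefficients
`a ^ (2 i) (2 i - 1) … (2 i - j) B_{2i} / (2i)!`, up to constants, at `x ^ (2 i)`, and are, times `(e^(a x) - 1)^(j + 1)`, polynomials in `x`
and `e ^ x`. If `E` vanishes at the regular indices `i`, `A < i ≤ b`, the corresponding linear combination is a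
polynomial of degree at most `2 A` modulo `x ^ (2 b + 2)`. Multiplied with the `k`-th power of the least common
multiple of the `e^(a x) - 1` this is a polynomial of degree at most `max (2 A) k` in `x` and `D k` in `e ^ x`, which
vanishes of order `2 b + 2 + k`; so it is zero (`Pool/Agent/Z058/ZE.lean`), and its behaviour at the
primitive `a`-th roots of unity shows that all coefficients are zero (`Pool/Agent/Z058/ExpPoly.lean`).
-/

set_option autoImplicit false

namespace Pool.Agent.Results.MP_a3a416_nt.ExponentialPolynomials

/-- The sum of `φ (n)` over the `n` which divide some element of `S`. For a set `S` of positive integers this is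
the number of the complex numbers `z` such that `z ^ a = 1` for some `a` in `S`. -/
def degreeSum (S : Finset ℕ) : ℕ := ∑ n ∈ S.biUnion Nat.divisors, Nat.totient n

/-- Let `p` be a prime, `S` a finite set of positive integers less than `p`, `D = degreeSum S`, and
`T = (D k + 1) (max (2 A) k + 1) ≤ p`. Let `lam a`, `a ∈ S`, be polynomials of degree less than `k` over
`ZMod p`, not all zero. Then there is `i > A` with `2 i + k + 1 ≤ T` such that `p` does not divide the numerator of
`B_{2i}` and `∑ lam_a (i) a ^ (2 i)`, `a ∈ S`, is not zero in `ZMod p`. -/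
theorem result (p : ℕ) (hp : p.Prime) (S : Finset ℕ) (hS : ∀ a ∈ S, 0 < a ∧ a < p) (k A : ℕ)
    (lam : ℕ → Polynomial (ZMod p)) (hdeg : ∀ a ∈ S, (lam a).degree < (k : WithBot ℕ))
    (hne : ∃ a ∈ S, lam a ≠ 0) (hT : (degreeSum S * k + 1) * (max (2 * A) k + 1) ≤ p) :
    ∃ i : ℕ, A < i ∧ 2 * i + k + 1 ≤ (degreeSum S * k + 1) * (max (2 * A) k + 1) ∧
      ¬ ((p : ℤ) ∣ (bernoulli (2 * i)).num) ∧
      ∑ a ∈ S, (lam a).eval (i : ZMod p) * (a : ZMod p) ^ (2 * i) ≠ 0 := by
  have : Fact p.Prime := ⟨hp⟩
  exact Pool.Agent.Z058.expPoly S hS k A lam hdeg hne hT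

end Pool.Agent.Results.MP_a3a416_nt.ExponentialPolynomials
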