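import Mathlib
import Pool.Agent.X148.Orders3

/-!
# At least half of the indices of each order are regular

Let `p` be an odd prime. The index `m`, `1 ≤ m ≤ (p - 3) / 2`, is irregular if `p` divides the numerator
of `B_{2m}`; it belongs to the odd character `ω^(2m-1)` of `(ℤ/p)ˣ`, whose order is `d = (p-1)/e`,
`e = gcd (2m - 1, p - 1)`, an odd divisor of `p - 1`. For each odd divisor `e` of `p - 1` there are `φ(d)`
such characters (one of them is `m = (p - 1) / 2` if `e = 1`). Let `k` be the number of irregular ones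
among them. Then

* `p^k ≤ (√p log p)^φ(d)`, so `k ≤ (1/2 + log log p / log p) φ(d)`;
* `p^(2k) ≤ ((p-1)² / (4 φ(d)))^φ(d)`, which is better for large `d`;
* `k ≤ φ(d) / 2` if `(log p)^(2φ(d)) < p` (for fixed `d`: for all large `p ≡ 1 mod d`), and also if
  `p - 1 ≤ 4 φ(d)` (that is, `e = 1` and `φ(p - 1) ≥ (p - 1) / 4`).

So for instance, for all large `p ≡ 5 mod 8`, `p` does not divide both `B_{(p+3)/4}` and `B_{(3p+1)/4}`.

Outline. Let `g` be a primitive root modulo `p` and `P = ∑_{0<a<p/2} X^{ind a}`. For a primitive `d`-th root of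
unity `ζ` in `ℂ`, `P(ζ) = ∑_{0<a<p/2} χ(a)` with an odd character `χ` of order `d`; it is
`(2χ(2))^{-1} (1 - 2χ(2)) (1/p)∑ a χ(a)` up to sign, not zero as `L(1, χ) ≠ 0`. For the primitive `d`-th root of
unity `g^(2m-1)` modulo `p`, `P(g^(2m-1)) = ∑_{a<p/2} a^(2m-1)`, which is zero modulo `p` for the irregular
`m` (Voronoi). So the norm of `P(ζ)` is divisible by `p^k`. It is bounded by the inequality of Pólya and
Vinogradov, or by the inequality between the geometric and arithmetic mean and Parseval's identity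
`∑_{χ odd} |∑_{a<p/2} χ(a)|² = ((p-1)/2)²`.
-/

set_option autoImplicit false

namespace Pool.Agent.Results.MP_a3a416_nt.HalfOfEachOrder

/-- Let `p ≥ 3` be a prime, `p - 1 = d e` with `e` odd, and let `k` be the number of the `m ≥ 1`,
`2 m ≤ p - 3`, with `gcd (2 m - 1, p - 1) = e` such that `p` divides the numerator of `B_{2m}`. -/
theorem result (p : ℕ) (hp : p.Prime) (h3 : 3 ≤ p) (d e : ℕ) (he : Odd e) (hde : p - 1 = d * e) (k : ℕ)
    (hk : k = ((Finset.Icc 1 ((p - 3) / 2)).filter (fun m : ℕ => Nat.gcd (2 * m - 1) (p - 1) = e ∧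
      (p : ℤ) ∣ (bernoulli (2 * m)).num)).card) :
    (p : ℝ) ^ k ≤ (Real.sqrt p * Real.log p) ^ d.totient ∧
    (p : ℝ) ^ (2 * k) ≤ (((p : ℝ) - 1) ^ 2 / (4 * d.totient)) ^ d.totient ∧
    (Real.log p ^ (2 * d.totient) < p ∨ p - 1 ≤ 4 * d.totient → 2 * k ≤ d.totient) := by
  have h := Pool.Agent.X148.Orders.main p hp h3 d e he hde
    ((Finset.Icc 1 ((p - 3) / 2)).filter (fun m : ℕ => Nat.gcd (2 * m - 1) (p - 1) = e ∧
      (p : ℤ) ∣ (bernoulli (2 * m)).num)) (by
      intro m hm
      rw [Finset.mem_filter, Finset.mem_Icc] at hm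
      exact ⟨hm.1.1, by omega, hm.2.1, hm.2.2⟩)
  rw [← hk] at h
  obtain ⟨h1, h2⟩ := h
  have hp1 : (1 : ℝ) < p := by exact_mod_cast hp.one_lt
  have hp0 : (0 : ℝ) < p := by linarith
  have hlog : 0 < Real.log p := Real.log_pos hp1
  have hd0 : 0 < d := by
    rcases Nat.eq_zero_or_pos d with h | h
    · rw [h, zero_mul] at hde; omega
    · exact h
  have htot : 0 < d.totient := Nat.totient_pos.2 hd0
  refine ⟨h1, h2, ?_⟩
  rintro (h4 | h4)
  · have h5 : (p : ℝ) ^ (2 * k) < (p : ℝ) ^ (d.totient + 1) := by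
      calc (p : ℝ) ^ (2 * k) = ((p : ℝ) ^ k) ^ 2 := by rw [mul_comm, pow_mul]
        _ ≤ ((Real.sqrt p * Real.log p) ^ d.totient) ^ 2 := pow_le_pow_left₀ (by positivity) h1 2
        _ = (p : ℝ) ^ d.totient * Real.log p ^ (2 * d.totient) := by
          rw [← pow_mul, mul_pow, mul_comm d.totient 2, pow_mul (Real.sqrt p), Real.sq_sqrt hp0.le]
        _ < (p : ℝ) ^ d.totient * p := by
          apply mul_lt_mul_of_pos_left h4 (by positivity)
        _ = (p : ℝ) ^ (d.totient + 1) := by rw [pow_succ]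
    have := (pow_lt_pow_iff_right₀ hp1).1 h5
    omega
  · have h5 : (p : ℝ) ^ (2 * k) < (p : ℝ) ^ (d.totient + 1) := by
      have h6 : ((p : ℝ) - 1) ≤ 4 * d.totient := by
        have : ((p - 1 : ℕ) : ℝ) ≤ ((4 * d.totient : ℕ) : ℝ) := by exact_mod_cast h4
        rw [Nat.cast_sub hp.one_lt.le] at this
        push_cast at this
        exact this
      have h7 : ((p : ℝ) - 1) ^ 2 / (4 * d.totient) ≤ p := by
        have : (0 : ℝ) < 4 * d.totient := by positivity
        rw [div_le_iff₀ this]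
        nlinarith
      calc (p : ℝ) ^ (2 * k) ≤ _ := h2
        _ ≤ (p : ℝ) ^ d.totient := pow_le_pow_left₀ (by positivity) h7 _
        _ < (p : ℝ) ^ (d.totient + 1) := pow_lt_pow_right₀ hp1 (by omega)
    have := (pow_lt_pow_iff_right₀ hp1).1 h5
    omega

end Pool.Agent.Results.MP_a3a416_nt.HalfOfEachOrder
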