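import Mathlib
import Pool.Agent.X148.RegPerm

/-!
# Perfect matchings by regular indices

Call `m`, `1 ≤ m ≤ (p - 3) / 2`, a regular index of the prime `p` if `p` does not divide the numerator
of `B_{2m}`.  For every prime `p`, `s = 0, 1` and every `n` with `4 n + 2 s + 1 ≤ p` there is a
permutation `σ` of `{0, …, n - 1}` such that all `n` numbers `i + σ(i) + 1 + s` are regular indices.
(They lie between `1` and `(p - 3) / 2`, and their mean is `n + s`.) In other words (Hall) for every
set `X` of integers in `[0, n)` at least `|X|` of the `b` in `[0, n)` are of the form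
`r - a - 1 - s` with `a ∈ X` and a regular index `r`; and if `A, B ⊆ [0, n)` have more than `n`
elements together then `a + b + 1 + s` is a regular index for some `a ∈ A`, `b ∈ B`.

Outline.  The Hankel determinant `det (B_{2(i+j+1+s)} / (2(i+j+1+s))!)`, `i, j < n`, is not zero
modulo `p`, so one of the terms of its expansion is not zero.  A vector in the kernel gives
polynomials `P, Q` with `P` odd, `Q` even and `P ≡ (2x/(e^x-1) + x) Q` to a high order; then
`(P - x Q) e^x ≡ P + x Q` modulo `x^(4n+2s)`, where the degree of `P - x Q` is less than `2n + s`.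
The vanishing of the coefficients of `A(x) e^x` at `2n + s` consecutive degrees `m < p` says that a
polynomial of degree less than `2n + s` in `m` has `2n + s` roots modulo `p`, so `P = x Q`, and then
`2 x Q ≡ 0`.
-/

set_option autoImplicit false

namespace Pool.Agent.Results.MP_a3a416_nt.RegularPermutations

/-- Let `p` be a prime, `s ≤ 1` and `4 n + 2 s + 1 ≤ p`. There is a permutation `σ` of `{0, …, n-1}`
such that for all `i` the prime `p` does not divide the numerator of the Bernoulli number
`B_{2(i + σ(i) + 1 + s)}`. -/
theorem result (p : ℕ) (hp : p.Prime) (n s : ℕ) (hs : s ≤ 1) (hn : 4 * n + 2 * s + 1 ≤ p) :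
    ∃ σ : Equiv.Perm (Fin n), ∀ i : Fin n,
      ¬ ((p : ℤ) ∣ (bernoulli (2 * ((i : ℕ) + (σ i : ℕ) + 1 + s))).num) := by
  have : Fact p.Prime := ⟨hp⟩
  exact Pool.Agent.X148.RegPerm.perm hs hn

end Pool.Agent.Results.MP_a3a416_nt.RegularPermutations
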